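import Pool.Agent.H49R2.PY.Main

/-!
# MP_6ec4b3_lc: no FPRAS for #PolyaOrbits with an integer alphabet, unless `RP = NP`

All definitions are in `Pool/Agent/H49R2/PY/Defs.lean` (`polya`, `Good`, `HasFPRAS`),
`Pool/Agent/H527R2/SharpP.lean` (`strFn`), `Pool/Agent/H579R2/Spt/Defs.lean` (`InRP`) and
`Pool/Agent/NPC/Defs.lean` (`PolyTime`, `InNP`, `bits`).

## Idea of the proof

Let the dihedral group `D` of order 8 act on four points as `S_2 wr S_2`.  The quotient of `D` by its
centre is `Z_2 ^ 2`; the sums of `k ^ c(g)` over the cosets of the centre are `k ^ 4 + k ^ 2`,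
`2 k ^ 3`, `2 k ^ 2`, `2 k` for the pairs of bits `(0, 0), (1, 0), (0, 1), (1, 1)`: the two bits
repel each other.  With many such gadgets, attached to random linear forms on blocks of variables,
the value of #PolyaOrbits is with high probability close to `lam ^ s` times the number of
independent sets of the maximal size `s` of a given graph, with a known large number `lam`.  For the
graph of a CNF formula this is the number of satisfying assignments.  So an FPRAS gives a randomised
test for satisfiability with two-sided error; amplification and the search for a satisfying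
assignment give `NP ⊆ RP`.
-/

namespace Pool.Agent.Results.MP_6ec4b3_lc.NoFPRAS

open Pool.Agent.NPC Pool.Agent.NPC.Cnt Pool.Agent.H49R2.PY Pool.Agent.H579R2.Spt

/-- **Main theorem.** Let `k ≥ 2` be an integer.  If #PolyaOrbits with alphabet size `k` has an
FPRAS, then `RP = NP`. -/
theorem result : ∀ k : ℕ, 2 ≤ k → HasFPRAS (strFn (polya k)) →
    ∀ L : Set (List Bool), InRP L ↔ InNP L :=
  fun k hk h L => ⟨fun hL => hL.inNP, fun hL => F2_ok k hk h L hL⟩

end Pool.Agent.Results.MP_6ec4b3_lc.NoFPRAS
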